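import Pool.Agent.Helper94.BC.Main
import Pool.Agent.Helper98.RS.All

/-!
# BC: all finitely generated groups of small growth

The residual `R` of the class of finite groups all of whose non-abelian simple sections have at
most `B` elements: `G / R` is virtually nilpotent and `R` is finitely generated.
-/

set_option autoImplicit false

open scoped Pointwise commutatorElement

namespace Pool.Agent.Helper47.BCP

open Pool.Agent.Helper98.RS

/-- All non-abelian simple sections of `Q` have at most `B` elements. -/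
def Sec (B : ℕ) (Q : Type) [Group Q] : Prop :=
  ∀ (K : Subgroup Q) (L : Subgroup K) [L.Normal], IsSimpleGroup (K ⧸ L) →
    (∃ a b : K ⧸ L, a * b ≠ b * a) → Nat.card (K ⧸ L) ≤ B

/-- The residual of the class. -/
def Resd (B : ℕ) (G : Type) [Group G] : Subgroup G :=
  sInf {N : Subgroup G | ∃ _ : N.Normal, N.FiniteIndex ∧ Sec B (G ⧸ N)}

/-- The same condition in terms of surjections. -/
theorem sec_iff {B : ℕ} {Q : Type} [Group Q] : Sec B Q ↔
    ∀ (K : Subgroup Q) (U : Type) [Group U] (f : K →* U), Function.Surjective f →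
      IsSimpleGroup U → (∃ a b : U, a * b ≠ b * a) → Nat.card U ≤ B := by
  constructor
  · intro h K U _ f hf hU hab
    let e : K ⧸ f.ker ≃* U := QuotientGroup.quotientKerEquivOfSurjective f hf
    have h1 : IsSimpleGroup (K ⧸ f.ker) := e.isSimpleGroup
    have h2 : ∃ a b : K ⧸ f.ker, a * b ≠ b * a := by
      obtain ⟨a, b, hab⟩ := hab
      refine ⟨e.symm a, e.symm b, fun h => hab ?_⟩
      rw [← map_mul, ← map_mul] at h
      exact e.symm.injective h
    rw [← Nat.card_congr e.toEquiv]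
    exact h K f.ker h1 h2
  · intro h K L _ h1 h2
    exact h K (K ⧸ L) (QuotientGroup.mk' L) (QuotientGroup.mk'_surjective L) h1 h2

theorem sec_surj {B : ℕ} {Q Q' : Type} [Group Q] [Group Q'] (f : Q →* Q')
    (hf : Function.Surjective f) (h : Sec B Q) : Sec B Q' := by
  rw [sec_iff] at h ⊢
  intro K U _ g hg hU hab
  let φ : K.comap f →* K :=
    { toFun := fun x => ⟨f x, x.2⟩
      map_one' := Subtype.ext (map_one f)
      map_mul' := fun x y => Subtype.ext (map_mul f _ _) }
  have hφ : Function.Surjective φ := by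
    rintro ⟨y, hy⟩
    obtain ⟨x, rfl⟩ := hf y
    exact ⟨⟨x, hy⟩, rfl⟩
  exact h (K.comap f) U (g.comp φ) (by simpa using hg.comp hφ) hU hab

theorem sec_inj {B : ℕ} {Q Q' : Type} [Group Q] [Group Q'] (f : Q' →* Q)
    (hf : Function.Injective f) (h : Sec B Q) : Sec B Q' := by
  rw [sec_iff] at h ⊢
  intro K U _ g hg hU hab
  let e : K ≃* K.map f := K.equivMapOfInjective f hf
  exact h (K.map f) U (g.comp e.symm.toMonoidHom) (by simpa using hg.comp e.symm.surjective) hU hab

theorem resd_le {B : ℕ} {G : Type} [Group G] {N : Subgroup G} (h : N.Normal) (hN : N.FiniteIndex)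
    (hs : Sec B (G ⧸ N)) : Resd B G ≤ N := sInf_le ⟨h, hN, hs⟩

theorem resd_normal (B : ℕ) (G : Type) [Group G] : (Resd B G).Normal := by
  refine ⟨fun n hn g => ?_⟩
  rw [Resd, Subgroup.mem_sInf] at hn ⊢
  rintro N ⟨hN, hN1⟩
  exact hN.conj_mem n (hn N ⟨hN, hN1⟩) g

/-- The residual of `G / R` is trivial. -/
theorem resd_quot {B : ℕ} {G : Type} [Group G] (R : Subgroup G) [R.Normal] (hR : R = Resd B G)
    (q : G ⧸ R) (hq : q ≠ 1) : ∃ (N : Subgroup (G ⧸ R)) (_ : N.Normal), N.FiniteIndex ∧ q ∉ N ∧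
      Sec B ((G ⧸ R) ⧸ N) := by
  obtain ⟨g, rfl⟩ := QuotientGroup.mk'_surjective R q
  have hg : g ∉ R := fun h => hq ((QuotientGroup.eq_one_iff g).2 h)
  have hg' : ¬ ∀ N ∈ {N : Subgroup G | ∃ _ : N.Normal, N.FiniteIndex ∧ Sec B (G ⧸ N)}, g ∈ N := by
    rw [← Subgroup.mem_sInf]
    rwa [hR] at hg
  push Not at hg'
  obtain ⟨N, ⟨hN, hNf, hNs⟩, hgN⟩ := hg'
  have hRN : R ≤ N := hR ▸ resd_le hN hNf hNs
  have hNm : (N.map (QuotientGroup.mk' R)).Normal :=
    Subgroup.Normal.map hN _ (QuotientGroup.mk'_surjective R)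
  have hcm : (N.map (QuotientGroup.mk' R)).comap (QuotientGroup.mk' R) = N := by
    rw [Subgroup.comap_map_eq, QuotientGroup.ker_mk', sup_eq_left]
    exact hRN
  refine ⟨N.map (QuotientGroup.mk' R), hNm, ⟨?_⟩, ?_, ?_⟩
  · rw [← Subgroup.index_comap_of_surjective _ (QuotientGroup.mk'_surjective R), hcm]
    exact hNf.index_ne_zero
  · intro h
    apply hgN
    rw [← hcm]
    exact h
  · refine sec_surj (QuotientGroup.map N (N.map (QuotientGroup.mk' R)) (QuotientGroup.mk' R)
      (by rw [hcm])) ?_ hNs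
    intro y
    obtain ⟨y, rfl⟩ := QuotientGroup.mk'_surjective _ y
    obtain ⟨y, rfl⟩ := QuotientGroup.mk'_surjective _ y
    exact ⟨(y : G ⧸ N), rfl⟩

/-! ### Finite generation of co-soluble subgroups -/

/-- Milnor: a normal subgroup with soluble quotient of a finitely generated group of subexponential
growth is finitely generated. -/
theorem fg_of_derived (n : ℕ) : ∀ (G : Type) [Group G], Group.FG G → SubExp' G →
    ∀ K : Subgroup G, derivedSeries G n ≤ K → K.FG := by
  induction n with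
  | zero =>
    intro G _ hfg _ K hK
    rw [derivedSeries_zero, top_le_iff] at hK
    rw [hK]
    exact Group.fg_def.1 hfg
  | succ n ih =>
    intro G _ hfg h K hK
    have hc := fg_commutator hfg h
    have hcfg : Group.FG (commutator G) := (Group.fg_iff_subgroup_fg _).2 hc
    have hcs : SubExp' (commutator G) :=
      Pool.Agent.Helper41.Gap.subexp_of_injective _ (commutator G).subtype_injective h
    have h1 : (K.subgroupOf (commutator G)).FG := by
      refine ih (commutator G) hcfg hcs _ ?_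
      intro x hx
      rw [Subgroup.mem_subgroupOf]
      apply hK
      have h2 : ∀ m, (derivedSeries (commutator G) m).map (commutator G).subtype ≤
          derivedSeries G (m + 1) := by
        intro m
        induction m with
        | zero =>
          rintro _ ⟨y, -, rfl⟩
          rw [derivedSeries_one]
          exact y.2
        | succ m ihm =>
          rw [derivedSeries_succ, derivedSeries_succ, Subgroup.map_commutator]
          exact Subgroup.commutator_mono ihm ihm
      exact h2 n ⟨x, hx, rfl⟩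
    -- `K` is an extension
    have h3 : (K ⊓ commutator G).FG := by
      have := Pool.Agent.Helper41.Gap.tb_fg_map (commutator G).subtype h1
      rwa [Subgroup.subgroupOf_map_subtype] at this
    let f : K →* Abelianization G := (Abelianization.of (G := G)).comp K.subtype
    have hab : Group.FG (Abelianization G) := by
      have := hfg
      exact Group.fg_of_surjective (f := Abelianization.of) (QuotientGroup.mk'_surjective _)
    have h4 : f.range.FG := Pool.Agent.Helper41.Gap.tb_sub_fg_comm (fun a b => mul_comm a b) hab _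
    have h5 : f.ker.FG := by
      have h6 : f.ker = (K ⊓ commutator G).subgroupOf K := by
        ext x
        rw [Subgroup.mem_subgroupOf, MonoidHom.mem_ker, Subgroup.mem_inf, ← Abelianization.ker_of,
          MonoidHom.mem_ker]
        exact ⟨fun h => ⟨x.2, h⟩, fun h => h.2⟩
      rw [h6]
      have h7 := (Subgroup.subgroupOfEquivOfLe (inf_le_left : K ⊓ commutator G ≤ K))
      have h8 : Group.FG (K ⊓ commutator G : Subgroup G) := (Group.fg_iff_subgroup_fg _).2 h3
      have h9 : Group.FG ((K ⊓ commutator G).subgroupOf K) :=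
        Group.fg_of_surjective (f := h7.symm.toMonoidHom) h7.symm.surjective
      exact (Group.fg_iff_subgroup_fg _).1 h9
    have h10 := Pool.Agent.Helper41.Gap.tb_fg_ext f h5 h4
    have h11 : Group.FG K := Group.fg_def.2 h10
    exact (Group.fg_iff_subgroup_fg _).1 h11

/-- A normal subgroup with virtually nilpotent quotient of a finitely generated group of
subexponential growth is finitely generated. -/
theorem fg_of_vn {G : Type} [Group G] (hfg : Group.FG G) (h : SubExp' G) (R : Subgroup G)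
    [R.Normal] (hQ : ∃ H : Subgroup (G ⧸ R), H.FiniteIndex ∧ Group.IsNilpotent H) : R.FG := by
  obtain ⟨H, hHf, hHn⟩ := hQ
  set G1 : Subgroup G := H.comap (QuotientGroup.mk' R) with hG1
  have hG1f : G1.FiniteIndex := ⟨by
    rw [hG1, Subgroup.index_comap_of_surjective _ (QuotientGroup.mk'_surjective R)]
    exact hHf.index_ne_zero⟩
  have hG1fg : Group.FG G1 := inferInstance
  have hG1s : SubExp' G1 := Pool.Agent.Helper41.Gap.subexp_of_injective _ G1.subtype_injective h
  have hHs : Group.IsSolvable H := inferInstance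
  obtain ⟨n, hn⟩ := (Group.isSolvable_def H).1 hHs
  let φ : G1 →* H :=
    { toFun := fun x => ⟨QuotientGroup.mk' R x, x.2⟩
      map_one' := rfl
      map_mul' := fun _ _ => rfl }
  have h1 : derivedSeries G1 n ≤ R.subgroupOf G1 := by
    intro x hx
    have h2 : φ x ∈ derivedSeries H n :=
      map_derivedSeries_le_derivedSeries φ n (Subgroup.mem_map_of_mem _ hx)
    rw [hn, Subgroup.mem_bot] at h2
    have h3 := congrArg Subtype.val h2
    rw [Subgroup.mem_subgroupOf]
    exact (QuotientGroup.eq_one_iff (x : G)).1 h3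
  have h2 := fg_of_derived n G1 hG1fg hG1s (R.subgroupOf G1) h1
  have h3 := Pool.Agent.Helper41.Gap.tb_fg_map G1.subtype h2
  have hR1 : R ≤ G1 := by
    intro x hx
    rw [hG1, Subgroup.mem_comap]
    have : QuotientGroup.mk' R x = 1 := (QuotientGroup.eq_one_iff x).2 hx
    rw [this]
    exact H.one_mem
  rwa [Subgroup.subgroupOf_map_subtype, inf_eq_left.2 hR1] at h3

private theorem bcp_finite {G : Type} [Group G] {S : Set G} (hS : S.Finite) (n : ℕ) :
    ((({1} : Set G) ∪ S ∪ S⁻¹) ^ n).Finite := by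
  have h1 : (({1} : Set G) ∪ S ∪ S⁻¹ : Set G).Finite := ((Set.finite_singleton 1).union hS).union hS.inv
  induction n with
  | zero => simp
  | succ n ih =>
    rw [pow_succ]
    exact ih.mul h1

/-- The growth bound passes to quotients. -/
theorem bcp_quot {G Q : Type} [Group G] [Group Q] (f : G →* Q) (S : Set G) (hS : S.Finite)
    (n : ℕ) : Nat.card ↥((({1} : Set Q) ∪ f '' S ∪ (f '' S)⁻¹) ^ n) ≤
      Nat.card ↥((({1} : Set G) ∪ S ∪ S⁻¹) ^ n) := by
  have h1 : (({1} : Set Q) ∪ f '' S ∪ (f '' S)⁻¹) ^ n = f '' ((({1} : Set G) ∪ S ∪ S⁻¹) ^ n) := by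
    rw [Set.image_pow, Set.image_union, Set.image_union, Set.image_singleton, map_one,
      Set.image_inv]
  rw [h1]
  have := (bcp_finite hS n).to_subtype
  exact Nat.card_image_le (bcp_finite hS n)

/-- `SubExp'` from the growth bound. -/
theorem bcp_subexp {G : Type} [Group G] (S : Set G) (hSf : S.Finite)
    (hS : Subgroup.closure S = ⊤) (c : ℝ) (hc1 : c < 1)
    (hgr : ∃ C : ℝ, 0 < C ∧ ∀ r : ℕ, (Nat.card ↥((({1} : Set G) ∪ S ∪ S⁻¹) ^ r) : ℝ) ≤
      C * Real.exp ((C * r) ^ c)) : SubExp' G := by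
  obtain ⟨C, hC, hgr⟩ := hgr
  have hα4 : max c 0 < 1 := max_lt hc1 (by norm_num)
  obtain ⟨β, hβ1, hβ2⟩ := _root_.exists_between hα4
  have hβ0 : 0 < β := (le_max_right _ _).trans_lt hβ1
  have hαβ : c < β := (le_max_left _ _).trans_lt hβ1
  have hG : GB S β := by
    obtain ⟨n0, hn0⟩ := Pool.Agent.Helper94.RS4.fin_rpow C c β hC hβ0 hαβ
    exact ⟨n0, fun n hn => (hgr n).trans (hn0 n hn)⟩
  exact subexp_of_gb S hSf hS β hβ2 hG

/-- Increasing the exponent. -/
theorem bcp_exp {f : ℕ → ℝ} {c c' : ℝ} (hcc : c ≤ c') (hc : 0 < c)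
    (h : ∃ C : ℝ, 0 < C ∧ ∀ r : ℕ, f r ≤ C * Real.exp ((C * r) ^ c)) :
    ∃ C : ℝ, 0 < C ∧ ∀ r : ℕ, f r ≤ C * Real.exp ((C * r) ^ c') := by
  obtain ⟨C, hC, h⟩ := h
  refine ⟨max C 1, lt_max_of_lt_left hC, fun r => (h r).trans ?_⟩
  have h1 : (C * r) ^ c ≤ (max C 1 * r) ^ c' := by
    rcases Nat.eq_zero_or_pos r with rfl | hr
    · simp only [Nat.cast_zero, mul_zero]
      rw [Real.zero_rpow hc.ne', Real.zero_rpow (hc.trans_le hcc).ne']
    · have hr1 : (1 : ℝ) ≤ r := by exact_mod_cast hr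
      have h2 : (C * r) ^ c ≤ (max C 1 * r) ^ c :=
        Real.rpow_le_rpow (by positivity) (mul_le_mul_of_nonneg_right (le_max_left _ _)
          (by positivity)) hc.le
      refine h2.trans (Real.rpow_le_rpow_of_exponent_le ?_ hcc)
      calc (1 : ℝ) = 1 * 1 := by norm_num
        _ ≤ max C 1 * r := mul_le_mul (le_max_right _ _) hr1 (by norm_num)
          ((zero_le_one).trans (le_max_right _ _))
  exact mul_le_mul (le_max_left _ _) (Real.exp_le_exp.2 h1) (Real.exp_pos _).le
    (hC.le.trans (le_max_left _ _))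

/-! ### Closure properties of the class -/

theorem sec_ext {B : ℕ} {P A : Type} [Group P] [Group A] (φ : P →* A) (h1 : Sec B φ.ker)
    (h2 : Sec B A) : Sec B P := by
  rw [sec_iff] at h1 h2 ⊢
  intro K U _ f hf hU hab
  -- the image of `K ∩ ker φ`
  set N : Subgroup K := (φ.ker).subgroupOf K with hN
  have hNn : (N.map f).Normal := Subgroup.Normal.map inferInstance f hf
  rcases hNn.eq_bot_or_eq_top with hb | ht
  · -- `f` factors through the image of `K` in `A`
    let ψ : K →* K.map φ :=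
      { toFun := fun x => ⟨φ x, Subgroup.mem_map_of_mem φ x.2⟩
        map_one' := Subtype.ext (map_one φ)
        map_mul' := fun x y => Subtype.ext (map_mul φ _ _) }
    have hψ : Function.Surjective ψ := by
      rintro ⟨_, x, hx, rfl⟩
      exact ⟨⟨x, hx⟩, rfl⟩
    have hk : ψ.ker ≤ f.ker := by
      intro x hx
      have hx1 : (x : P) ∈ φ.ker := by
        rw [MonoidHom.mem_ker] at hx ⊢
        exact congrArg Subtype.val hx
      have hx2 : f x ∈ N.map f := Subgroup.mem_map_of_mem f (Subgroup.mem_subgroupOf.2 hx1)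
      rw [hb, Subgroup.mem_bot] at hx2
      exact hx2
    refine h2 (K.map φ) U (ψ.liftOfSurjective hψ ⟨f, hk⟩) ?_ hU hab
    intro u
    obtain ⟨x, rfl⟩ := hf u
    exact ⟨ψ x, MonoidHom.liftOfRightInverse_comp_apply _ _ _ _ x⟩
  · let ψ : K.subgroupOf φ.ker →* U :=
      { toFun := fun x => f ⟨((x : φ.ker) : P), x.2⟩
        map_one' := map_one f
        map_mul' := fun x y => by rw [← map_mul]; rfl }
    refine h1 (K.subgroupOf φ.ker) U ψ ?_ hU hab
    intro u
    have hu : u ∈ N.map f := ht ▸ Subgroup.mem_top u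
    obtain ⟨x, hx, rfl⟩ := hu
    exact ⟨⟨⟨x, hx⟩, x.2⟩, rfl⟩

theorem sec_solvable {B : ℕ} {Q : Type} [Group Q] (h : Group.IsSolvable Q) : Sec B Q := by
  rw [sec_iff]
  intro K U _ f hf hU hab
  exfalso
  have h1 : Group.IsSolvable K := inferInstance
  have h2 : Group.IsSolvable U := Group.isSolvable_of_surjective hf
  obtain ⟨a, b, hab⟩ := hab
  exact hab (IsSimpleGroup.comm_iff_isSolvable.2 h2 a b)

theorem sec_pi {B : ℕ} {Q : Type} [Group Q] (h : Sec B Q) (n : ℕ) : Sec B (Fin n → Q) := by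
  induction n with
  | zero => exact sec_solvable inferInstance
  | succ n ih =>
    refine sec_ext (Pi.evalMonoidHom (fun _ : Fin (n + 1) => Q) 0) ?_ h
    let φ : (Pi.evalMonoidHom (fun _ : Fin (n + 1) => Q) 0).ker →* (Fin n → Q) :=
      { toFun := fun x i => (x : Fin (n + 1) → Q) i.succ
        map_one' := rfl
        map_mul' := fun _ _ => rfl }
    refine sec_inj φ ?_ ih
    intro x y hxy
    apply Subtype.ext
    funext i
    refine Fin.cases ?_ (fun i => ?_) i
    · have hx : (x : Fin (n + 1) → Q) 0 = 1 := x.2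
      have hy : (y : Fin (n + 1) → Q) 0 = 1 := y.2
      rw [hx, hy]
    · exact congrFun hxy i

/-- A virtually nilpotent residually-class group is in the class. -/
theorem sec_of_vn {B : ℕ} {Γ : Type} [Group Γ]
    (h : ∃ H : Subgroup Γ, H.FiniteIndex ∧ Group.IsNilpotent H)
    (hres : ∀ g : Γ, g ≠ 1 → ∃ (N : Subgroup Γ) (_ : N.Normal), N.FiniteIndex ∧ g ∉ N ∧
      Sec B (Γ ⧸ N)) : Sec B Γ := by
  obtain ⟨F, hFf, hFn⟩ := h
  have hFs : Group.IsSolvable F := inferInstance
  obtain ⟨k, hk⟩ := (Group.isSolvable_def F).1 hFs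
  let Fam : Set (Subgroup Γ) := {N | ∃ _ : N.Normal, N.FiniteIndex ∧ Sec B (Γ ⧸ N)}
  -- closed under intersections
  have hinf : ∀ N ∈ Fam, ∀ N' ∈ Fam, N ⊓ N' ∈ Fam := by
    rintro N ⟨hN, hNf, hNs⟩ N' ⟨hN', hNf', hNs'⟩
    refine ⟨inferInstance, inferInstance, ?_⟩
    refine sec_ext (QuotientGroup.map (N ⊓ N') N (MonoidHom.id Γ) inf_le_left) ?_ hNs
    refine sec_inj ((QuotientGroup.map (N ⊓ N') N' (MonoidHom.id Γ) inf_le_right).comp
      (Subgroup.subtype _)) ?_ hNs'
    rw [injective_iff_map_eq_one]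
    rintro ⟨x, hx⟩ hx'
    obtain ⟨x, rfl⟩ := QuotientGroup.mk'_surjective _ x
    have h1 : x ∈ N := (QuotientGroup.eq_one_iff x).1 (MonoidHom.mem_ker.1 hx)
    have h2 : x ∈ N' := (QuotientGroup.eq_one_iff x).1 hx'
    exact Subtype.ext ((QuotientGroup.eq_one_iff x).2 ⟨h1, h2⟩)
  have htop : (⊤ : Subgroup Γ) ∈ Fam := by
    refine ⟨inferInstance, inferInstance, ?_⟩
    refine sec_solvable ?_
    have : Subsingleton (Γ ⧸ (⊤ : Subgroup Γ)) := QuotientGroup.subsingleton_quotient_top
    infer_instance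
  -- maximise the index of `N ⊔ F`
  have hbd : ∀ N : Subgroup Γ, (N ⊔ F).index ≤ F.index := fun N =>
    Nat.le_of_dvd (Nat.pos_of_ne_zero hFf.index_ne_zero) (Subgroup.index_dvd_of_le le_sup_right)
  obtain ⟨N0, hN0, hmax⟩ : ∃ N0 ∈ Fam, ∀ N ∈ Fam, (N ⊔ F).index ≤ (N0 ⊔ F).index := by
    have hfin : ((fun N : Subgroup Γ => (N ⊔ F).index) '' Fam).Finite :=
      (Set.finite_Iic F.index).subset (by rintro _ ⟨N, -, rfl⟩; exact hbd N)
    obtain ⟨m, ⟨N0, hN0, rfl⟩, hm⟩ := hfin.exists_maximal (⟨_, ⊤, htop, rfl⟩)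
    refine ⟨N0, hN0, fun N hN => ?_⟩
    by_contra hlt
    push Not at hlt
    exact absurd (hm ⟨N, hN, rfl⟩ hlt.le) (not_le.2 hlt)
  have hle : ∀ N ∈ Fam, N0 ≤ N ⊔ F := by
    intro N hN
    have h1 := hmax _ (hinf N hN N0 hN0)
    have h2 : (N ⊓ N0) ⊔ F ≤ N0 ⊔ F := sup_le_sup_right inf_le_right F
    have h3 : ((N ⊓ N0) ⊔ F).index = (N0 ⊔ F).index * ((N ⊓ N0) ⊔ F).relIndex (N0 ⊔ F) := by
      rw [mul_comm, Subgroup.relIndex_mul_index h2]
    have h4 : (N0 ⊔ F).index ≠ 0 := by
      have : (N0 ⊔ F).FiniteIndex := Subgroup.finiteIndex_of_le (le_sup_right : F ≤ N0 ⊔ F)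
      exact this.index_ne_zero
    have h5 : ((N ⊓ N0) ⊔ F).index ≠ 0 := by
      have : ((N ⊓ N0) ⊔ F).FiniteIndex :=
        Subgroup.finiteIndex_of_le (le_sup_right : F ≤ (N ⊓ N0) ⊔ F)
      exact this.index_ne_zero
    have h6 : ((N ⊓ N0) ⊔ F).relIndex (N0 ⊔ F) = 1 := by
      rw [h3] at h1
      have h7 : ((N ⊓ N0) ⊔ F).relIndex (N0 ⊔ F) ≠ 0 := by
        intro h; rw [h, mul_zero] at h3; exact h5 h3
      have h8 : (N0 ⊔ F).index * ((N ⊓ N0) ⊔ F).relIndex (N0 ⊔ F) ≤ (N0 ⊔ F).index * 1 := by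
        rw [mul_one]; exact h1
      have := Nat.le_of_mul_le_mul_left h8 (Nat.pos_of_ne_zero h4)
      omega
    rw [Subgroup.relIndex_eq_one] at h6
    exact le_sup_left.trans (h6.trans (sup_le_sup_right inf_le_left F))
  obtain ⟨hN0n, hN0f, hN0s⟩ := hN0
  have hN0sol : Group.IsSolvable N0 := by
    rw [Group.isSolvable_def]
    refine ⟨k, ?_⟩
    rw [eq_bot_iff]
    intro x hx
    rw [Subgroup.mem_bot]
    by_contra hx1
    have hx2 : (x : Γ) ≠ 1 := fun h => hx1 (Subtype.ext h)
    obtain ⟨N, hN, hNf, hxN, hNs⟩ := hres x hx2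
    apply hxN
    have h1 : N0.map (QuotientGroup.mk' N) ≤ F.map (QuotientGroup.mk' N) := by
      have h2 := hle N ⟨hN, hNf, hNs⟩
      rw [Subgroup.map_le_iff_le_comap, Subgroup.comap_map_eq, QuotientGroup.ker_mk', sup_comm]
      exact h2
    let φ : N0 →* F.map (QuotientGroup.mk' N) :=
      { toFun := fun y => ⟨QuotientGroup.mk' N y, h1 (Subgroup.mem_map_of_mem _ y.2)⟩
        map_one' := rfl
        map_mul' := fun _ _ => rfl }
    let ψ : F →* F.map (QuotientGroup.mk' N) :=
      { toFun := fun y => ⟨QuotientGroup.mk' N y, Subgroup.mem_map_of_mem _ y.2⟩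
        map_one' := rfl
        map_mul' := fun _ _ => rfl }
    have hψ : Function.Surjective ψ := by
      rintro ⟨_, y, hy, rfl⟩
      exact ⟨⟨y, hy⟩, rfl⟩
    have h3 : derivedSeries (F.map (QuotientGroup.mk' N)) k = ⊥ := by
      rw [← map_derivedSeries_eq hψ, hk, Subgroup.map_bot]
    have h4 : φ x ∈ derivedSeries (F.map (QuotientGroup.mk' N)) k :=
      map_derivedSeries_le_derivedSeries φ k (Subgroup.mem_map_of_mem _ hx)
    rw [h3, Subgroup.mem_bot] at h4
    exact (QuotientGroup.eq_one_iff (x : Γ)).1 (congrArg Subtype.val h4)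
  refine sec_ext (QuotientGroup.mk' N0) ?_ hN0s
  refine sec_solvable ?_
  rw [QuotientGroup.ker_mk']
  exact hN0sol

private theorem bcp_homs {G K : Type} [Group G] [Group K] [Finite K] (hfg : Group.FG G) :
    Finite (G →* K) := by
  obtain ⟨n, S, hSc, hS⟩ := Group.fg_iff'.1 hfg
  refine Finite.of_injective (fun f : G →* K => fun s : S => f s) ?_
  intro f g h
  apply MonoidHom.eq_of_eqOn_dense hS
  intro x hx
  exact congrFun h ⟨x, hx⟩

/-- A finite quotient in the class of a finitely generated group `R` can be made characteristic. -/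
theorem char_core {B : ℕ} {R : Type} [Group R] (hfg : Group.FG R) (M : Subgroup R) [M.Normal]
    (hMf : M.FiniteIndex) (hMs : Sec B (R ⧸ M)) : ∃ K : Subgroup R, K ≤ M ∧ K.FiniteIndex ∧
      (∃ _ : K.Normal, Sec B (R ⧸ K)) ∧ ∀ φ : R ≃* R, ∀ x ∈ K, φ x ∈ K := by
  have hfin : Finite (R ⧸ M) := Subgroup.finite_quotient_of_finiteIndex
  have hh : Finite (R →* R ⧸ M) := bcp_homs hfg
  set K : Subgroup R := ⨅ f : R →* R ⧸ M, f.ker with hK
  have hKn : K.Normal := Subgroup.normal_iInf_normal fun f => inferInstance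
  have hKf : K.FiniteIndex := Subgroup.finiteIndex_iInf fun f => inferInstance
  refine ⟨K, ?_, hKf, ⟨hKn, ?_⟩, ?_⟩
  · refine (iInf_le _ (QuotientGroup.mk' M)).trans ?_
    rw [QuotientGroup.ker_mk']
  · obtain ⟨n, ⟨e⟩⟩ := Finite.exists_equiv_fin (R →* R ⧸ M)
    let φ : R →* (Fin n → R ⧸ M) := MonoidHom.pi fun i => e.symm i
    have hφ : K ≤ φ.ker := by
      intro x hx
      rw [hK, Subgroup.mem_iInf] at hx
      rw [MonoidHom.mem_ker]
      funext i
      exact hx (e.symm i)
    refine sec_inj (QuotientGroup.lift K φ hφ) ?_ (sec_pi hMs n)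
    rw [injective_iff_map_eq_one]
    intro q hq
    obtain ⟨x, rfl⟩ := QuotientGroup.mk'_surjective K q
    refine (QuotientGroup.eq_one_iff x).2 ?_
    rw [hK, Subgroup.mem_iInf]
    intro f
    have h1 := congrFun hq (e f)
    rw [MonoidHom.mem_ker]
    have h2 : (e.symm (e f)) x = 1 := h1
    rwa [Equiv.symm_apply_apply] at h2
  · intro φ x hx
    rw [hK, Subgroup.mem_iInf] at hx ⊢
    intro f
    exact hx (f.comp φ.toMonoidHom)

/-- The residual has no non-trivial finite quotients in the class. -/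
theorem resd_perfect {B : ℕ} {G : Type} [Group G] (hfg : Group.FG G) (h : SubExp' G)
    (R : Subgroup G) [R.Normal] (hR : R = Resd B G) (hRfg : R.FG)
    (hQ : ∃ H : Subgroup (G ⧸ R), H.FiniteIndex ∧ Group.IsNilpotent H)
    (M : Subgroup R) [M.Normal] (hMf : M.FiniteIndex) (hMs : Sec B (R ⧸ M)) : M = ⊤ := by
  have hRfg' : Group.FG R := (Group.fg_iff_subgroup_fg _).2 hRfg
  obtain ⟨K0, hK0M, hK0f, ⟨hK0n, hK0s⟩, hK0c⟩ := char_core hRfg' M hMf hMs
  set K : Subgroup G := K0.map R.subtype with hK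
  have hKR : K ≤ R := Subgroup.map_subtype_le K0
  have hKn : K.Normal := by
    refine ⟨?_⟩
    rintro _ ⟨r, hr, rfl⟩ g
    exact ⟨MulAut.conjNormal g r, hK0c _ r hr, by simp⟩
  -- `R / K` inside `G / K`
  set Rb : Subgroup (G ⧸ K) := R.map (QuotientGroup.mk' K) with hRb
  have hRbn : Rb.Normal := Subgroup.Normal.map inferInstance _ (QuotientGroup.mk'_surjective K)
  let ρ : R →* Rb :=
    { toFun := fun x => ⟨QuotientGroup.mk' K x, Subgroup.mem_map_of_mem _ x.2⟩
      map_one' := rfl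
      map_mul' := fun _ _ => rfl }
  have hρ : Function.Surjective ρ := by
    rintro ⟨_, y, hy, rfl⟩
    exact ⟨⟨y, hy⟩, rfl⟩
  have hρK : K0 ≤ ρ.ker := by
    intro x hx
    rw [MonoidHom.mem_ker]
    apply Subtype.ext
    exact (QuotientGroup.eq_one_iff (x : G)).2 ⟨x, hx, rfl⟩
  have hlift : Function.Surjective (QuotientGroup.lift K0 ρ hρK) := by
    intro y
    obtain ⟨x, rfl⟩ := hρ y
    exact ⟨(x : R ⧸ K0), rfl⟩
  have hfinK : Finite (R ⧸ K0) := Subgroup.finite_quotient_of_finiteIndex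
  have hRbf : Finite Rb := Finite.of_surjective _ hlift
  have hRbs : Sec B Rb := sec_surj _ hlift hK0s
  -- `(G / K) / (R / K)` is `G / R`
  let τ : G ⧸ K →* G ⧸ R := QuotientGroup.map K R (MonoidHom.id G) hKR
  have hτ : Function.Surjective τ := by
    intro y
    obtain ⟨x, rfl⟩ := QuotientGroup.mk'_surjective R y
    exact ⟨(x : G ⧸ K), rfl⟩
  have hτk : τ.ker = Rb := by
    ext q
    obtain ⟨x, rfl⟩ := QuotientGroup.mk'_surjective K q
    constructor
    · intro hx
      have : x ∈ R := (QuotientGroup.eq_one_iff x).1 hx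
      exact Subgroup.mem_map_of_mem _ this
    · rintro ⟨y, hy, hyx⟩
      rw [← hyx]
      exact (QuotientGroup.eq_one_iff y).2 hy
  -- `G / R` is in the class
  have hGR : Sec B (G ⧸ R) := sec_of_vn hQ fun q hq => by
    obtain ⟨N, hN, hNf, hqN, hNs⟩ := resd_quot R hR q hq
    exact ⟨N, hN, hNf, hqN, hNs⟩
  have hGK : Sec B (G ⧸ K) := by
    refine sec_ext τ ?_ hGR
    rw [hτk]
    exact hRbs
  -- `G / K` is virtually nilpotent
  have hfgK : Group.FG (G ⧸ K) :=
    Group.fg_of_surjective (f := QuotientGroup.mk' K) (QuotientGroup.mk'_surjective K)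
  have hsubK : SubExp' (G ⧸ K) :=
    Pool.Agent.Helper41.Gap.subexp_of_surjective _ (QuotientGroup.mk'_surjective K) h
  have hvn : ∃ H : Subgroup (G ⧸ K), H.FiniteIndex ∧ Group.IsNilpotent H := by
    refine vn_ext hfgK hsubK Rb ?_ ?_ ?_
    · have h1 : Group.FG Rb := inferInstance
      exact (Group.fg_iff_subgroup_fg _).1 h1
    · refine ⟨⊥, ?_, ?_⟩
      · exact Subgroup.finiteIndex_of_finite
      · infer_instance
    · obtain ⟨H, hHf, hHn⟩ := hQ
      let e : (G ⧸ K) ⧸ Rb ≃* G ⧸ R :=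
        (QuotientGroup.quotientMulEquivOfEq hτk.symm).trans
          (QuotientGroup.quotientKerEquivOfSurjective τ hτ)
      refine ⟨H.comap e.toMonoidHom, ⟨?_⟩, ?_⟩
      · rw [Subgroup.index_comap_of_surjective _ e.surjective]
        exact hHf.index_ne_zero
      · let f : H →* H.comap e.toMonoidHom :=
          { toFun := fun x => ⟨e.symm x, by
              show e (e.symm x) ∈ H
              rw [e.apply_symm_apply]
              exact x.2⟩
            map_one' := Subtype.ext (map_one e.symm)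
            map_mul' := fun x y => Subtype.ext (map_mul e.symm _ _) }
        refine Group.nilpotent_of_surjective f ?_
        intro x
        exact ⟨⟨e x, x.2⟩, Subtype.ext (e.symm_apply_apply _)⟩
  -- hence `R ≤ K`
  have hRK : R ≤ K := by
    intro x hx
    by_contra hxK
    obtain ⟨N, hN, hNf, hxN⟩ := vnil_resfinite hfgK hvn (QuotientGroup.mk' K x)
      (fun h => hxK ((QuotientGroup.eq_one_iff x).1 h))
    apply hxN
    have h1 : R ≤ N.comap (QuotientGroup.mk' K) := by
      rw [hR]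
      refine resd_le inferInstance ⟨?_⟩ ?_
      · rw [Subgroup.index_comap_of_surjective _ (QuotientGroup.mk'_surjective K)]
        exact hNf.index_ne_zero
      · refine sec_inj (QuotientGroup.map (N.comap (QuotientGroup.mk' K)) N (QuotientGroup.mk' K)
          le_rfl) ?_ (sec_surj (QuotientGroup.mk' N) (QuotientGroup.mk'_surjective N) hGK)
        rw [injective_iff_map_eq_one]
        intro q hq
        obtain ⟨x, rfl⟩ := QuotientGroup.mk'_surjective _ q
        exact (QuotientGroup.eq_one_iff x).2 ((QuotientGroup.eq_one_iff (x : G ⧸ K)).1 hq)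
    exact h1 hx
  rw [eq_top_iff]
  intro x _
  obtain ⟨y, hy, hyx⟩ := hRK x.2
  have : y = x := Subtype.ext hyx
  exact hK0M (this ▸ hy)

/-- The structure of all finitely generated groups of small growth. -/
theorem res (B : ℕ) : ∃ c : ℝ, 0 < c ∧ ∀ (G : Type) [Group G] (S : Set G), S.Finite →
    Subgroup.closure S = ⊤ →
    (∃ C : ℝ, 0 < C ∧ ∀ r : ℕ, (Nat.card ↥((({1} : Set G) ∪ S ∪ S⁻¹) ^ r) : ℝ) ≤
      C * Real.exp ((C * r) ^ c)) →
    ∀ R : Subgroup G, R = sInf {N : Subgroup G | ∃ _ : N.Normal, N.FiniteIndex ∧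
        ∀ (K : Subgroup (G ⧸ N)) (L : Subgroup K) [L.Normal], IsSimpleGroup (K ⧸ L) →
          (∃ a b : K ⧸ L, a * b ≠ b * a) → Nat.card (K ⧸ L) ≤ B} →
      R.FG ∧
      (∃ _ : R.Normal, ∃ H : Subgroup (G ⧸ R), H.FiniteIndex ∧ Group.IsNilpotent H) ∧
      (∀ (M : Subgroup R) [M.Normal], M.FiniteIndex →
        (∀ (K : Subgroup (R ⧸ M)) (L : Subgroup K) [L.Normal], IsSimpleGroup (K ⧸ L) →
          (∃ a b : K ⧸ L, a * b ≠ b * a) → Nat.card (K ⧸ L) ≤ B) → M = ⊤) ∧
      ((∃ H : Subgroup R, H.FiniteIndex ∧ Group.IsNilpotent H) →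
        ∃ H : Subgroup G, H.FiniteIndex ∧ Group.IsNilpotent H) := by
  obtain ⟨c0, hc0, hmain⟩ := Pool.Agent.Helper94.BC.main.1 B
  refine ⟨min c0 (1 / 2), lt_min hc0 (by norm_num), ?_⟩
  intro G _ S hSf hS hgr R hR
  have hR' : R = Resd B G := hR
  have hRn : R.Normal := hR' ▸ resd_normal B G
  have hfg : Group.FG G := by
    rw [Group.fg_iff]
    exact ⟨S, hS, hSf⟩
  have hsub : SubExp' G := bcp_subexp S hSf hS _
    ((min_le_right _ _).trans_lt (by norm_num)) hgr
  have hQ : ∃ H : Subgroup (G ⧸ R), H.FiniteIndex ∧ Group.IsNilpotent H := by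
    refine hmain (G ⧸ R) (QuotientGroup.mk' R '' S) (hSf.image _) ?_ ?_ ?_
    · rw [← MonoidHom.map_closure, hS, ← MonoidHom.range_eq_map, MonoidHom.range_eq_top]
      exact QuotientGroup.mk'_surjective R
    · obtain ⟨C, hC, h⟩ := bcp_exp (min_le_left c0 (1 / 2)) (lt_min hc0 (by norm_num)) hgr
      refine ⟨C, hC, fun n => le_trans ?_ (h n)⟩
      exact_mod_cast bcp_quot (QuotientGroup.mk' R) S hSf n
    · exact fun q hq => resd_quot R hR' q hq
  have hRfg := fg_of_vn hfg hsub R hQ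
  exact ⟨hRfg, ⟨hRn, hQ⟩, fun M _ hMf hMs => resd_perfect hfg hsub R hR' hRfg hQ M hMf hMs,
    fun hRv => vn_ext hfg hsub R hRfg hRv hQ⟩

end Pool.Agent.Helper47.BCP
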